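import Pool.Agent.H741.RS.Stm2

/-!
# Project RS: the representation of the unitary group on the Hermitian kernels (`S_REPE`)
-/

set_option autoImplicit false
open scoped ComplexConjugate

namespace Pool.Agent.H695.RS

open Pool.Agent.H741.RS MeasureTheory

/-! ### an invariant scalar product -/

/-- the product of two open unit balls -/
def OO (n : ℕ) : Set (V n × V n) := Metric.ball 0 1 ×ˢ Metric.ball 0 1

/-- the integral of `Re (u conj v)` over the product of two balls -/
noncomputable def ip {n : ℕ} (u v : V n → V n → ℂ) : ℝ :=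
  ∫ p in OO n, (u p.1 p.2 * conj (v p.1 p.2)).re ∂((volume : Measure (V n)).prod volume)

/-- joint continuity -/
def Cnt {n : ℕ} (u : V n → V n → ℂ) : Prop := Continuous (fun p : V n × V n => u p.1 p.2)

lemma ip_cont {n : ℕ} {u v : V n → V n → ℂ} (hu : Cnt u) (hv : Cnt v) :
    Continuous (fun p : V n × V n => (u p.1 p.2 * conj (v p.1 p.2)).re) :=
  Complex.continuous_re.comp (hu.mul (Complex.continuous_conj.comp hv))

lemma ip_int {n : ℕ} {u v : V n → V n → ℂ} (hu : Cnt u) (hv : Cnt v) :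
    IntegrableOn (fun p : V n × V n => (u p.1 p.2 * conj (v p.1 p.2)).re) (OO n)
      ((volume : Measure (V n)).prod volume) := by
  have hK : IsCompact (Metric.closedBall (0 : V n) 1 ×ˢ Metric.closedBall (0 : V n) 1) :=
    (isCompact_closedBall _ _).prod (isCompact_closedBall _ _)
  exact ((ip_cont hu hv).continuousOn.integrableOn_compact hK).mono_set
    (Set.prod_mono Metric.ball_subset_closedBall Metric.ball_subset_closedBall)

lemma ip_symm {n : ℕ} (u v : V n → V n → ℂ) : ip u v = ip v u := by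
  unfold ip
  congr 1
  funext p
  simp only [Complex.mul_re, Complex.conj_re, Complex.conj_im]
  ring

lemma ip_add {n : ℕ} {u v w : V n → V n → ℂ} (hu : Cnt u) (hv : Cnt v) (hw : Cnt w) :
    ip (u + v) w = ip u w + ip v w := by
  unfold ip
  rw [← integral_add (ip_int hu hw) (ip_int hv hw)]
  congr 1
  funext p
  simp only [Pi.add_apply, add_mul, Complex.add_re]

lemma ip_smul {n : ℕ} (u v : V n → V n → ℂ) (r : ℝ) : ip (r • u) v = r * ip u v := by
  unfold ip
  rw [← integral_const_mul]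
  congr 1
  funext p
  simp only [Pi.smul_apply, Complex.real_smul, mul_assoc, Complex.re_ofReal_mul]

lemma ip_self {n : ℕ} (u : V n → V n → ℂ) (p : V n × V n) :
    (u p.1 p.2 * conj (u p.1 p.2)).re = ‖u p.1 p.2‖ ^ 2 := by
  rw [Complex.mul_conj, Complex.ofReal_re, Complex.normSq_eq_norm_sq]

lemma ip_nonneg {n : ℕ} (u : V n → V n → ℂ) : 0 ≤ ip u u := by
  unfold ip
  refine integral_nonneg fun p => ?_
  show 0 ≤ (u p.1 p.2 * conj (u p.1 p.2)).re
  rw [ip_self]
  positivity

lemma ip_def {n : ℕ} {u : V n → V n → ℂ} (hu : Cnt u) (h : ip u u = 0) (z w : V n) (hz : ‖z‖ < 1)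
    (hw : ‖w‖ < 1) : u z w = 0 := by
  unfold ip at h
  have h1 := (integral_eq_zero_iff_of_nonneg (μ := ((volume : Measure (V n)).prod volume).restrict
    (OO n)) (f := fun p : V n × V n => (u p.1 p.2 * conj (u p.1 p.2)).re) (by
      intro p
      show 0 ≤ (u p.1 p.2 * conj (u p.1 p.2)).re
      rw [ip_self]
      positivity) (ip_int hu hu)).1 h
  have h2 := Measure.eqOn_open_of_ae_eq h1 (Metric.isOpen_ball.prod Metric.isOpen_ball)
    (ip_cont hu hu).continuousOn continuousOn_const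
  have h3 : (z, w) ∈ OO n := by
    refine ⟨?_, ?_⟩
    · show z ∈ Metric.ball 0 1
      rwa [mem_ball_zero_iff]
    · show w ∈ Metric.ball 0 1
      rwa [mem_ball_zero_iff]
  have h4 := h2 h3
  have h5 : (u z w * conj (u z w)).re = 0 := h4
  rw [ip_self u (z, w)] at h5
  exact norm_eq_zero.1 (pow_eq_zero_iff two_ne_zero |>.1 h5)

/-- a complex linear isometry as a real one -/
noncomputable def rl {n : ℕ} (U : V n ≃ₗᵢ[ℂ] V n) : V n ≃ₗᵢ[ℝ] V n :=
  { U.toLinearEquiv.restrictScalars ℝ with norm_map' := U.norm_map }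

lemma ip_inv {n : ℕ} (U : V n ≃ₗᵢ[ℂ] V n) (u v : V n → V n → ℂ) :
    ip (fun z w => u (U z) (U w)) (fun z w => v (U z) (U w)) = ip u v := by
  have h1 : MeasurePreserving (Prod.map (rl U) (rl U)) ((volume : Measure (V n)).prod volume)
      ((volume : Measure (V n)).prod volume) :=
    (rl U).measurePreserving.prod (rl U).measurePreserving
  have h2 : MeasurableEmbedding (Prod.map (rl U) (rl U) : V n × V n → V n × V n) :=
    ((rl U).toHomeomorph.prodCongr (rl U).toHomeomorph).measurableEmbedding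
  have h3 := h1.setIntegral_preimage_emb h2
    (fun p : V n × V n => (u p.1 p.2 * conj (v p.1 p.2)).re) (OO n)
  have h4 : (Prod.map (rl U) (rl U) : V n × V n → V n × V n) ⁻¹' (OO n) = OO n := by
    ext p
    show ((U p.1, U p.2) : V n × V n) ∈ OO n ↔ p ∈ OO n
    unfold OO
    rw [Set.mem_prod, Set.mem_prod, mem_ball_zero_iff, mem_ball_zero_iff, mem_ball_zero_iff,
      mem_ball_zero_iff]
    show ‖U p.1‖ < 1 ∧ ‖U p.2‖ < 1 ↔ _
    rw [U.norm_map, U.norm_map]
  rw [h4] at h3
  exact h3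

/-! ### the representation on an invariant space of functions -/

/-- the action on an invariant space -/
noncomputable def actL {n : ℕ} (W : Submodule ℝ (V n → V n → ℂ))
    (hU : ∀ (U : V n ≃ₗᵢ[ℂ] V n), ∀ u ∈ W, (fun z w => u (U z) (U w)) ∈ W)
    (U : V n ≃ₗᵢ[ℂ] V n) : W ≃ₗ[ℝ] W where
  toFun u := ⟨fun z w => u.1 (U⁻¹ z) (U⁻¹ w), hU U⁻¹ u.1 u.2⟩
  invFun u := ⟨fun z w => u.1 (U z) (U w), hU U u.1 u.2⟩
  map_add' u v := rfl
  map_smul' r u := rfl
  left_inv u := by
    apply Subtype.ext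
    funext z w
    show u.1 (U.symm (U z)) (U.symm (U w)) = u.1 z w
    rw [U.symm_apply_apply, U.symm_apply_apply]
  right_inv u := by
    apply Subtype.ext
    funext z w
    show u.1 (U (U.symm z)) (U (U.symm w)) = u.1 z w
    rw [U.apply_symm_apply, U.apply_symm_apply]

theorem mkRep {n : ℕ} (W : Submodule ℝ (V n → V n → ℂ)) (hfin : FiniteDimensional ℝ W)
    (hc : ∀ u ∈ W, Cnt u)
    (h0 : ∀ u ∈ W, (∀ z w, ‖z‖ < 1 → ‖w‖ < 1 → u z w = 0) → u = 0)
    (hU : ∀ (U : V n ≃ₗᵢ[ℂ] V n), ∀ u ∈ W, (fun z w => u (U z) (U w)) ∈ W) :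
    ∃ (E : Type) (_ : NormedAddCommGroup E) (_ : InnerProductSpace ℝ E)
      (_ : FiniteDimensional ℝ E) (κ : E →ₗ[ℝ] (V n → V n → ℂ))
      (ρ : (V n ≃ₗᵢ[ℂ] V n) →* (E ≃ₗᵢ[ℝ] E)), Function.Injective κ ∧ (∀ x, κ x ∈ W) ∧
      (∀ u ∈ W, ∃ x, κ x = u) ∧ ∀ U x z w, κ (ρ U x) (U z) (U w) = κ x z w := by
  let core : InnerProductSpace.Core ℝ W :=
    { inner := fun u v => ip u.1 v.1
      conj_inner_symm := fun u v => by
        show ip v.1 u.1 = ip u.1 v.1
        exact ip_symm _ _
      re_inner_nonneg := fun u => ip_nonneg u.1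
      add_left := fun u v w => ip_add (hc _ u.2) (hc _ v.2) (hc _ w.2)
      smul_left := fun u v r => ip_smul u.1 v.1 r
      definite := fun u hu => Subtype.ext (h0 _ u.2 fun z w hz hw => ip_def (hc _ u.2) hu z w hz hw) }
  letI i1 : NormedAddCommGroup W := @InnerProductSpace.Core.toNormedAddCommGroup ℝ W _ _ _ core
  letI i2 : InnerProductSpace ℝ W := InnerProductSpace.ofCore core.toCore
  have hin : ∀ u v : W, inner ℝ u v = ip u.1 v.1 := fun u v => rfl
  let ρ : (V n ≃ₗᵢ[ℂ] V n) →* (W ≃ₗᵢ[ℝ] W) :=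
    { toFun := fun U => (actL W hU U).isometryOfInner (fun u v => by
        rw [hin, hin]
        exact ip_inv U⁻¹ u.1 v.1)
      map_one' := by
        ext u
        rfl
      map_mul' := by
        intro U U'
        ext u z w
        show u.1 ((U * U')⁻¹ z) ((U * U')⁻¹ w) = u.1 (U'⁻¹ (U⁻¹ z)) (U'⁻¹ (U⁻¹ w))
        rw [mul_inv_rev]
        rfl }
  refine ⟨W, i1, i2, hfin, W.subtype, ρ, W.subtype_injective, fun x => x.2, fun u hu => ⟨⟨u, hu⟩, rfl⟩,
    fun U x z w => ?_⟩
  show x.1 (U.symm (U z)) (U.symm (U w)) = x.1 z w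
  rw [U.symm_apply_apply, U.symm_apply_apply]

/-! ### homogeneous kernels -/

lemma hk_add {n i j : ℕ} {u v : V n → V n → ℂ} (hu : HKer i j u) (hv : HKer i j v) :
    HKer i j (u + v) := by
  obtain ⟨m, a, b, hab, hu⟩ := hu
  obtain ⟨m', a', b', hab', hv⟩ := hv
  refine ⟨m + m', Fin.append a a', Fin.append b b', ?_, ?_⟩
  · intro l
    refine Fin.addCases (fun l => ?_) (fun l => ?_) l
    · rw [Fin.append_left, Fin.append_left]
      exact hab l
    · rw [Fin.append_right, Fin.append_right]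
      exact hab' l
  · intro z w
    rw [Fin.sum_univ_add]
    simp only [Fin.append_left, Fin.append_right]
    show u z w + v z w = _
    rw [hu, hv]

lemma hk_smul {n i j : ℕ} {u : V n → V n → ℂ} (hu : HKer i j u) (r : ℝ) : HKer i j (r • u) := by
  obtain ⟨m, a, b, hab, hu⟩ := hu
  refine ⟨m, fun l => MvPolynomial.C (r : ℂ) * a l, b, ?_, ?_⟩
  · intro l
    refine ⟨?_, (hab l).2⟩
    have h := (MvPolynomial.isHomogeneous_C (Fin n) (r : ℂ)).mul (hab l).1
    rwa [zero_add] at h
  · intro z w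
    show r • u z w = _
    rw [hu, Complex.real_smul, Finset.mul_sum]
    refine Finset.sum_congr rfl fun l _ => ?_
    unfold ev
    rw [map_mul, MvPolynomial.eval_C]
    ring

lemma hk_zero {n i j : ℕ} : HKer i j (0 : V n → V n → ℂ) :=
  ⟨0, fun l => l.elim0, fun l => l.elim0, fun l => l.elim0, fun z w => by simp⟩

/-- composition of a homogeneous polynomial with a linear map -/
lemma comp_hom {n i : ℕ} (U : V n ≃ₗᵢ[ℂ] V n) (a : MvPolynomial (Fin n) ℂ) (ha : a.IsHomogeneous i) :
    ∃ a' : MvPolynomial (Fin n) ℂ, a'.IsHomogeneous i ∧ ∀ z, ev a' z = ev a (U z) := by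
  let g : Fin n → MvPolynomial (Fin n) ℂ := fun r =>
    ∑ l, MvPolynomial.C ((U (EuclideanSpace.basisFun (Fin n) ℂ l)) r) * MvPolynomial.X l
  have hg : ∀ r, (g r).IsHomogeneous 1 := by
    intro r
    refine MvPolynomial.IsHomogeneous.sum _ _ _ fun l _ => ?_
    have h := (MvPolynomial.isHomogeneous_C (Fin n)
      ((U (EuclideanSpace.basisFun (Fin n) ℂ l)) r)).mul (MvPolynomial.isHomogeneous_X ℂ l)
    rwa [zero_add] at h
  have hge : ∀ (z : V n) r, MvPolynomial.eval (fun i => z i) (g r) = (U z) r := by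
    intro z r
    have h1 : U z = ∑ l, z l • U (EuclideanSpace.basisFun (Fin n) ℂ l) := by
      have h2 : z = ∑ l, z l • EuclideanSpace.basisFun (Fin n) ℂ l := by
        have h3 := (EuclideanSpace.basisFun (Fin n) ℂ).sum_repr z
        simpa using h3.symm
      conv_lhs => rw [h2]
      rw [map_sum]
      simp only [map_smul]
    rw [h1]
    simp only [g, map_sum, map_mul, MvPolynomial.eval_C, MvPolynomial.eval_X]
    simp [mul_comm]
  refine ⟨MvPolynomial.aeval g a, ?_, ?_⟩
  · have h := ha.aeval g hg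
    rwa [one_mul] at h
  · intro z
    unfold ev
    rw [← MvPolynomial.coe_aeval_eq_eval, ← MvPolynomial.coe_aeval_eq_eval]
    show (MvPolynomial.aeval fun i => z i) (MvPolynomial.aeval g a) = MvPolynomial.aeval _ a
    rw [MvPolynomial.comp_aeval_apply]
    congr 1
    congr 1
    funext r
    rw [← hge z r, ← MvPolynomial.coe_aeval_eq_eval]
    rfl

lemma hk_comp {n i j : ℕ} {u : V n → V n → ℂ} (hu : HKer i j u) (U : V n ≃ₗᵢ[ℂ] V n) :
    HKer i j (fun z w => u (U z) (U w)) := by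
  obtain ⟨m, a, b, hab, hu⟩ := hu
  choose a' ha' using fun l => comp_hom U (a l) (hab l).1
  choose b' hb' using fun l => comp_hom U (b l) (hab l).2
  refine ⟨m, a', b', fun l => ⟨(ha' l).1, (hb' l).1⟩, fun z w => ?_⟩
  show u (U z) (U w) = _
  rw [hu]
  refine Finset.sum_congr rfl fun l _ => ?_
  rw [(ha' l).2, (hb' l).2]

lemma hk_cnt {n i j : ℕ} {u : V n → V n → ℂ} (hu : HKer i j u) : Cnt u := by
  obtain ⟨m, a, b, hab, hu⟩ := hu
  have h1 : (fun p : V n × V n => u p.1 p.2) =
      fun p => ∑ l, ev (a l) p.1 * conj (ev (b l) p.2) := by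
    funext p
    exact hu p.1 p.2
  have hev : ∀ P : MvPolynomial (Fin n) ℂ, Continuous (fun z : V n => ev P z) := by
    intro P
    exact (MvPolynomial.continuous_eval P).comp (EuclideanSpace.equiv (Fin n) ℂ).continuous
  show Continuous (fun p : V n × V n => u p.1 p.2)
  rw [h1]
  refine continuous_finsetSum _ fun l _ => ?_
  exact ((hev (a l)).comp continuous_fst).mul
    (Complex.continuous_conj.comp ((hev (b l)).comp continuous_snd))

/-- homogeneity -/
lemma ev_smul {n i : ℕ} {a : MvPolynomial (Fin n) ℂ} (ha : a.IsHomogeneous i) (t : ℂ) (z : V n) :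
    ev a (t • z) = t ^ i * ev a z := by
  unfold ev
  rw [MvPolynomial.eval_eq', MvPolynomial.eval_eq', Finset.mul_sum]
  refine Finset.sum_congr rfl fun d hd => ?_
  have h1 : ∑ l, d l = i := by
    have h2 := ha (MvPolynomial.mem_support_iff.1 hd)
    rw [Finsupp.weight_apply, Finsupp.sum_fintype] at h2
    · simpa using h2
    · intro l
      simp
  have h3 : ∏ l, ((t • z) l) ^ (d l) = t ^ i * ∏ l, (z l) ^ (d l) := by
    rw [← h1, ← Finset.prod_pow_eq_pow_sum, ← Finset.prod_mul_distrib]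
    refine Finset.prod_congr rfl fun l _ => ?_
    rw [PiLp.smul_apply, smul_eq_mul, mul_pow]
  rw [h3]
  ring

lemma hk_scale {n i j : ℕ} {u : V n → V n → ℂ} (hu : HKer i j u) (t : ℝ) (z w : V n) :
    u ((t : ℂ) • z) ((t : ℂ) • w) = (t : ℂ) ^ (i + j) * u z w := by
  obtain ⟨m, a, b, hab, hu⟩ := hu
  rw [hu, hu, Finset.mul_sum]
  refine Finset.sum_congr rfl fun l _ => ?_
  rw [ev_smul (hab l).1, ev_smul (hab l).2, map_mul, map_pow, Complex.conj_ofReal]
  ring

/-! ### the space of the kernels -/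

lemma ak_cnt {n k : ℕ} {u : V n → V n → ℂ} (hu : AKer k u) : Cnt u := by
  obtain ⟨v, hv, _, _, _, h⟩ := hu
  have h1 : (fun p : V n × V n => u p.1 p.2) =
      fun p => ∑ i ∈ Finset.range (k + 1), ∑ j ∈ Finset.range (k + 1), v i j p.1 p.2 := by
    funext p
    exact h p.1 p.2
  show Continuous (fun p : V n × V n => u p.1 p.2)
  rw [h1]
  exact continuous_finsetSum _ fun i _ => continuous_finsetSum _ fun j _ => hk_cnt (hv i j)

lemma ak_zero_of_ball {n k : ℕ} {u : V n → V n → ℂ} (hu : AKer k u)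
    (h0 : ∀ z w, ‖z‖ < 1 → ‖w‖ < 1 → u z w = 0) : u = 0 := by
  obtain ⟨v, hv, _, _, _, h⟩ := hu
  funext z w
  let q : Polynomial ℂ := ∑ i ∈ Finset.range (k + 1), ∑ j ∈ Finset.range (k + 1),
    Polynomial.C (v i j z w) * Polynomial.X ^ (i + j)
  have hq : ∀ t : ℝ, q.eval (t : ℂ) = u ((t : ℂ) • z) ((t : ℂ) • w) := by
    intro t
    rw [h]
    simp only [q, Polynomial.eval_finsetSum, Polynomial.eval_mul, Polynomial.eval_C,
      Polynomial.eval_pow, Polynomial.eval_X]
    refine Finset.sum_congr rfl fun i _ => Finset.sum_congr rfl fun j _ => ?_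
    rw [hk_scale (hv i j)]
    ring
  have hpos : 0 < 1 + ‖z‖ + ‖w‖ := by positivity
  have hinf : Set.Infinite {t : ℂ | q.IsRoot t} := by
    have h1 : (Set.Ioo (0 : ℝ) (1 / (1 + ‖z‖ + ‖w‖))).Infinite :=
      Set.Ioo_infinite (by positivity)
    refine (h1.image (f := fun t : ℝ => (t : ℂ)) (Complex.ofReal_injective.injOn)).mono ?_
    rintro _ ⟨t, ht, rfl⟩
    show q.eval (t : ℂ) = 0
    rw [hq]
    have h2 : t * (1 + ‖z‖ + ‖w‖) < 1 := by
      have := (lt_div_iff₀ hpos).1 ht.2
      linarith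
    have ht0 := ht.1
    have hz := norm_nonneg z
    have hw := norm_nonneg w
    apply h0
    · rw [norm_smul, Complex.norm_real, Real.norm_eq_abs, abs_of_pos ht0]
      nlinarith
    · rw [norm_smul, Complex.norm_real, Real.norm_eq_abs, abs_of_pos ht0]
      nlinarith
  have hq0 : q = 0 := Polynomial.eq_zero_of_infinite_isRoot q hinf
  have h3 := hq 1
  rw [hq0, Polynomial.eval_zero, Complex.ofReal_one, one_smul, one_smul] at h3
  exact h3.symm

/-- the Hermitian kernels -/
def WW (n k : ℕ) : Submodule ℝ (V n → V n → ℂ) where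
  carrier := {u | Herm u ∧ AKer k u}
  zero_mem' := by
    refine ⟨fun z w => by simp, fun _ _ => 0, fun i j => hk_zero, rfl, rfl, rfl, fun z w => by simp⟩
  add_mem' := by
    rintro u v ⟨hu, a, ha, ha1, ha2, ha3, ha4⟩ ⟨hv, b, hb, hb1, hb2, hb3, hb4⟩
    refine ⟨?_, fun i j => a i j + b i j, fun i j => hk_add (ha i j) (hb i j), ?_, ?_, ?_, ?_⟩
    · intro z w
      show u w z + v w z = conj (u z w + v z w)
      rw [hu, hv, map_add]
    · show a 0 1 + b 0 1 = 0
      rw [ha1, hb1, add_zero]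
    · show a 1 0 + b 1 0 = 0
      rw [ha2, hb2, add_zero]
    · show a 1 1 + b 1 1 = 0
      rw [ha3, hb3, add_zero]
    · intro z w
      show u z w + v z w = _
      rw [ha4, hb4, ← Finset.sum_add_distrib]
      refine Finset.sum_congr rfl fun i _ => ?_
      rw [← Finset.sum_add_distrib]
      rfl
  smul_mem' := by
    rintro r u ⟨hu, a, ha, ha1, ha2, ha3, ha4⟩
    refine ⟨?_, fun i j => r • a i j, fun i j => hk_smul (ha i j) r, ?_, ?_, ?_, ?_⟩
    · intro z w
      show r • u w z = conj (r • u z w)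
      rw [hu, Complex.real_smul, Complex.real_smul, map_mul, Complex.conj_ofReal]
    · show r • a 0 1 = 0
      rw [ha1, smul_zero]
    · show r • a 1 0 = 0
      rw [ha2, smul_zero]
    · show r • a 1 1 = 0
      rw [ha3, smul_zero]
    · intro z w
      show r • u z w = _
      rw [ha4, Finset.smul_sum]
      refine Finset.sum_congr rfl fun i _ => ?_
      rw [Finset.smul_sum]
      rfl

lemma WW_comp {n k : ℕ} (U : V n ≃ₗᵢ[ℂ] V n) (u : V n → V n → ℂ) (hu : u ∈ WW n k) :
    (fun z w => u (U z) (U w)) ∈ WW n k := by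
  obtain ⟨hu, a, ha, ha1, ha2, ha3, ha4⟩ := hu
  refine ⟨fun z w => hu _ _, fun i j => fun z w => a i j (U z) (U w),
    fun i j => hk_comp (ha i j) U, ?_, ?_, ?_, fun z w => ha4 _ _⟩
  · funext z w
    show a 0 1 (U z) (U w) = 0
    rw [ha1]
    rfl
  · funext z w
    show a 1 0 (U z) (U w) = 0
    rw [ha2]
    rfl
  · funext z w
    show a 1 1 (U z) (U w) = 0
    rw [ha3]
    rfl

/-- the monomial kernels -/
noncomputable def mon {n : ℕ} (d e : Fin n → ℕ) : V n → V n → ℂ := fun z w =>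
  (∏ l, z l ^ d l) * conj (∏ l, w l ^ e l)

/-- the real span of the monomial kernels and their multiples by `i` -/
noncomputable def MM (n k : ℕ) : Submodule ℝ (V n → V n → ℂ) :=
  Submodule.span ℝ (Set.range (fun q : Bool × (Fin n → Fin (k + 1)) × (Fin n → Fin (k + 1)) =>
    fun z w => (if q.1 then (1 : ℂ) else Complex.I) *
      mon (fun l => (q.2.1 l : ℕ)) (fun l => (q.2.2 l : ℕ)) z w))

lemma mon_mem {n k : ℕ} (c : ℂ) (d e : Fin n → ℕ) (hd : ∀ l, d l ≤ k) (he : ∀ l, e l ≤ k) :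
    (fun z w => c * mon d e z w) ∈ MM n k := by
  have h1 : ∀ b : Bool, (fun z w => (if b then (1 : ℂ) else Complex.I) * mon d e z w) ∈ MM n k := by
    intro b
    exact Submodule.subset_span ⟨(b, (fun l => ⟨d l, Nat.lt_succ_of_le (hd l)⟩),
      (fun l => ⟨e l, Nat.lt_succ_of_le (he l)⟩)), rfl⟩
  have h2 : (fun z w => c * mon d e z w) =
      c.re • (fun z w => (if true then (1 : ℂ) else Complex.I) * mon d e z w) +
      c.im • (fun z w => (if false then (1 : ℂ) else Complex.I) * mon d e z w) := by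
    funext z w
    show c * mon d e z w = c.re • ((1 : ℂ) * mon d e z w) + c.im • (Complex.I * mon d e z w)
    rw [Complex.real_smul, Complex.real_smul]
    nth_rewrite 1 [← Complex.re_add_im c]
    ring
  rw [h2]
  exact (MM n k).add_mem ((MM n k).smul_mem _ (h1 true)) ((MM n k).smul_mem _ (h1 false))

lemma hk_mem {n i j k : ℕ} (hi : i ≤ k) (hj : j ≤ k) {u : V n → V n → ℂ} (hu : HKer i j u) :
    u ∈ MM n k := by
  obtain ⟨m, a, b, hab, hu⟩ := hu
  have hdeg : ∀ (P : MvPolynomial (Fin n) ℂ) (r : ℕ), P.IsHomogeneous r → r ≤ k →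
      ∀ d ∈ P.support, ∀ l, d l ≤ k := by
    intro P r hP hr d hd l
    have h2 := hP (MvPolynomial.mem_support_iff.1 hd)
    rw [Finsupp.weight_apply, Finsupp.sum_fintype] at h2
    · have h3 : ∑ l, d l = r := by simpa using h2
      have h4 : d l ≤ ∑ l, d l := Finset.single_le_sum (f := fun l => d l)
        (fun _ _ => Nat.zero_le _) (Finset.mem_univ l)
      omega
    · intro l
      simp
  have h1 : u = ∑ l, ∑ d ∈ (a l).support, ∑ e ∈ (b l).support,
      (fun z w => ((a l).coeff d * conj ((b l).coeff e)) * mon (fun s => d s) (fun s => e s) z w) := by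
    funext z w
    rw [hu]
    simp only [Finset.sum_apply]
    refine Finset.sum_congr rfl fun l _ => ?_
    unfold ev
    rw [MvPolynomial.eval_eq', MvPolynomial.eval_eq', map_sum, Finset.sum_mul_sum]
    refine Finset.sum_congr rfl fun d _ => Finset.sum_congr rfl fun e _ => ?_
    unfold mon
    rw [map_mul]
    ring
  rw [h1]
  refine Submodule.sum_mem _ fun l _ => Submodule.sum_mem _ fun d hd => Submodule.sum_mem _
    fun e he => ?_
  exact mon_mem _ _ _ (hdeg _ _ (hab l).1 hi d hd) (hdeg _ _ (hab l).2 hj e he)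

lemma WW_le (n k : ℕ) : WW n k ≤ MM n k := by
  rintro u ⟨_, v, hv, _, _, _, h⟩
  have h1 : u = ∑ i ∈ Finset.range (k + 1), ∑ j ∈ Finset.range (k + 1), v i j := by
    funext z w
    rw [h]
    simp only [Finset.sum_apply]
  rw [h1]
  refine Submodule.sum_mem _ fun i hi => Submodule.sum_mem _ fun j hj => ?_
  rw [Finset.mem_range] at hi hj
  exact hk_mem (by omega) (by omega) (hv i j)

instance (n k : ℕ) : FiniteDimensional ℝ (MM n k) :=
  FiniteDimensional.span_of_finite ℝ (Set.finite_range _)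

theorem t_REPE : S_REPE := by
  intro n k
  obtain ⟨E, i1, i2, i3, κ, ρ, h1, h2, h3, h4⟩ := mkRep (WW n k)
    (Submodule.finiteDimensional_of_le (WW_le n k)) (fun u hu => ak_cnt hu.2)
    (fun u hu h => ak_zero_of_ball hu.2 h) (fun U u hu => WW_comp U u hu)
  have h5 : ∀ u : V n → V n → ℂ, Herm u → AKer k u → ∃ x, κ x = u :=
    fun u hu hu' => h3 u ⟨hu, hu'⟩
  exact ⟨E, i1, i2, i3, ⟨{ ρ := ρ, κ := κ, inj := h1, herm := h2, surj := h5, equi := h4 }⟩⟩

end Pool.Agent.H695.RS
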